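import Mathlib
import Pool.Agent.Lib_helper90.FR.Core

set_option autoImplicit false

/-! Definitions for the Freiheitssatz for free products of (torsion-free abelian)-by-(rank one)
groups. -/

namespace Pool.Agent.H90.FS

universe u

/-- The `c l` are coefficients of `x` with respect to `r`, the same for all derivations into
modules over the group algebra of `Γ`. -/
def Rel {F : Type u} [Group F] {m : ℕ} (r : Fin m → F) {κ : Type u} [Field κ] {Γ : Type u}
    [Group Γ] (ρ : F →* Γ) (x : F) (c : Fin m → MonoidAlgebra κ Γ) : Prop :=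
  ∀ (M : Type u) [AddCommGroup M] [Module κ M] (act : MonoidAlgebra κ Γ →ₐ[κ] Module.End κ M)
    (δ : F → M), (∀ x y, δ (x * y) = δ x + act (MonoidAlgebra.of κ Γ (ρ x)) (δ y)) →
    δ x = ∑ l, act (c l) (δ (r l))

/-- The rows of `c` are linearly independent for the left multiplication. -/
def Indep {R : Type u} [Ring R] {I J : Type} [Fintype I] (c : I → J → R) : Prop :=
  ∀ d : I → R, (∀ j, ∑ i, d i * c i j = 0) → ∀ i, d i = 0

/-- Følner sets for the right multiplication. -/
def Fol (Γ : Type u) [Group Γ] : Prop :=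
  ∀ (K : Set Γ), K.Finite → ∀ q : ℕ, ∃ E B : Finset Γ, B ⊆ E ∧ E.Nonempty ∧
    (∀ f ∈ E, f ∉ B → ∀ k ∈ K, f * k ∈ E) ∧ q * B.card ≤ E.card

/-- The kernel of `π` is abelian and torsion-free. -/
def KerTFA {G H : Type*} [Group G] [Group H] (π : G →* H) : Prop :=
  (∀ x y, π x = 1 → π y = 1 → x * y = y * x) ∧
    ∀ (x : G) (n : ℕ), π x = 1 → 0 < n → x ^ n = 1 → x = 1

/-- `B` has a homomorphism to the additive group of rational numbers with torsion-free abelian
kernel. -/
def RankOne (B : Type u) [Group B] : Prop :=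
  ∃ τ : B →* Multiplicative ℚ, KerTFA τ

/-- `A` is discriminated by finite free products of groups which satisfy `RankOne`. -/
def Discr (A : Type u) [Group A] : Prop :=
  ∀ X : Set A, X.Finite → (1 : A) ∉ X → ∃ (l : ℕ) (B : Fin l → Type u) (_ : ∀ j, Group (B j))
    (f : A →* Monoid.CoprodI B), (∀ j, RankOne (B j)) ∧ ∀ x ∈ X, f x ≠ 1

/-- The conditions on a factor and a function `τ` in the main theorem: `τ` is a nonzero additive
function to the rational numbers, every additive function to a rational vector space is a multiple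
of it, and its kernel is abelian and torsion-free. -/
structure Nice {V : Type u} [Group V] (τ : V → ℚ) : Prop where
  add : ∀ a b, τ (a * b) = τ a + τ b
  ne : ∃ a, τ a ≠ 0
  univ : ∀ (B : Type u) [AddCommGroup B] [Module ℚ B] (f : V → B),
    (∀ a b, f (a * b) = f a + f b) → ∃ w : B, ∀ a, f a = τ a • w
  comm : ∀ x y, τ x = 0 → τ y = 0 → x * y = y * x
  tf : ∀ (x : V) (n : ℕ), τ x = 0 → 0 < n → x ^ n = 1 → x = 1

end Pool.Agent.H90.FS
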