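import Mathlib
import Pool.Agent.Lib_helper67.FS.FP

set_option autoImplicit false

/-! Block LE: from homomorphisms to partial homomorphisms. -/

namespace Pool.Agent.H90.FS

universe u

/-- Every finite subset of `A` embeds, with its multiplication, into a finite free product of groups
which satisfy `RankOne`. -/
def LocEmb (A : Type u) [Group A] : Prop :=
  ∀ X : Set A, X.Finite → ∃ (l : ℕ) (B : Fin l → Type u) (_ : ∀ j, Group (B j))
    (f : A → Monoid.CoprodI B), (∀ j, RankOne (B j)) ∧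
    (∀ x ∈ X, ∀ y ∈ X, f (x * y) = f x * f y) ∧ ∀ x ∈ X, x ≠ 1 → f x ≠ 1

theorem Discr.locEmb {A : Type u} [Group A] (h : Discr A) : LocEmb A := by
  intro X hX
  obtain ⟨l, B, iB, f, hB, hf⟩ := h (X \ {1}) (hX.subset Set.sdiff_subset) (fun h => h.2 rfl)
  exact ⟨l, B, iB, f, hB, fun x _ y _ => map_mul f x y, fun x hx hx1 => hf x ⟨hx, hx1⟩⟩

section

variable {ι : Type} {A : ι → Type u} [∀ i, Group (A i)]

/-- The value of a word. -/
def le_ev {H : Type u} [Group H] (g : ∀ i, A i → H) : FreeMonoid (Σ i, A i) →* H :=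
  FreeMonoid.lift fun p => g p.1 p.2

/-- The functions `g i` respect products of the pairs in `X`. -/
def le_PM {H : Type u} [Group H] (g : ∀ i, A i → H) (X : Set (Σ i, A i)) : Prop :=
  (∀ i, g i 1 = 1) ∧ ∀ (i : ι) (x y : A i), (⟨i, x⟩ : Σ i, A i) ∈ X → (⟨i, y⟩ : Σ i, A i) ∈ X →
    g i (x * y) = g i x * g i y

theorem le_PM.mono {H : Type u} [Group H] {g : ∀ i, A i → H} {X Y : Set (Σ i, A i)}
    (h : le_PM g Y) (hXY : X ⊆ Y) : le_PM g X :=
  ⟨h.1, fun i x y hx hy => h.2 i x y (hXY hx) (hXY hy)⟩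

variable (A) in
/-- Two words are equal for all partial homomorphisms on some finite set. -/
def le_con : Con (FreeMonoid (Σ i, A i)) where
  r w w' := ∃ X : Set (Σ i, A i), X.Finite ∧ ∀ (H : Type u) [Group H] (g : ∀ i, A i → H),
    le_PM g X → le_ev g w = le_ev g w'
  iseqv :=
    { refl := fun w => ⟨∅, Set.finite_empty, fun _ _ _ _ => rfl⟩
      symm := by
        rintro w w' ⟨X, hX, h⟩
        exact ⟨X, hX, fun H _ g hg => (h H g hg).symm⟩
      trans := by
        rintro w w' w'' ⟨X, hX, h⟩ ⟨Y, hY, h'⟩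
        refine ⟨X ∪ Y, hX.union hY, fun H _ g hg => ?_⟩
        rw [h H g (hg.mono Set.subset_union_left), h' H g (hg.mono Set.subset_union_right)] }
  mul' := by
    rintro w w' v v' ⟨X, hX, h⟩ ⟨Y, hY, h'⟩
    refine ⟨X ∪ Y, hX.union hY, fun H _ g hg => ?_⟩
    rw [map_mul, map_mul, h H g (hg.mono Set.subset_union_left),
      h' H g (hg.mono Set.subset_union_right)]

variable (A) in
/-- The element of the free product given by a word. -/
def le_q : FreeMonoid (Σ i, A i) →* Monoid.CoprodI A :=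
  FreeMonoid.lift fun p => Monoid.CoprodI.of p.2

theorem le_q_eq (w : FreeMonoid (Σ i, A i)) :
    le_q A w = (conGen (Monoid.CoprodI.Rel A)).mk' w := by
  have h : le_q A = ((conGen (Monoid.CoprodI.Rel A)).mk' : FreeMonoid (Σ i, A i) →*
      Monoid.CoprodI A) := by
    apply FreeMonoid.hom_eq
    rintro ⟨i, x⟩
    unfold le_q
    rw [FreeMonoid.lift_eval_of]
    rfl
  rw [h]
  rfl

theorem le_main (w w' : FreeMonoid (Σ i, A i)) (h : le_q A w = le_q A w') :
    ∃ X : Set (Σ i, A i), X.Finite ∧ ∀ (H : Type u) [Group H] (g : ∀ i, A i → H),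
      le_PM g X → le_ev g w = le_ev g w' := by
  rw [le_q_eq, le_q_eq] at h
  have h1 : conGen (Monoid.CoprodI.Rel A) w w' := (Con.eq _).1 h
  have h2 : conGen (Monoid.CoprodI.Rel A) ≤ le_con A := by
    rw [Con.conGen_le]
    rintro _ _ (i | ⟨x, y⟩)
    · refine ⟨∅, Set.finite_empty, fun H _ g hg => ?_⟩
      unfold le_ev
      rw [FreeMonoid.lift_eval_of, map_one]
      exact hg.1 i
    · rename_i i
      refine ⟨{⟨i, x⟩, ⟨i, y⟩}, Set.toFinite _, fun H _ g hg => ?_⟩
      unfold le_ev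
      rw [map_mul, FreeMonoid.lift_eval_of, FreeMonoid.lift_eval_of, FreeMonoid.lift_eval_of]
      exact (hg.2 i x y (by simp) (by simp)).symm
  exact h2 h1

theorem le_q_surj (x : Monoid.CoprodI A) : ∃ w, le_q A w = x := by
  induction x using Monoid.CoprodI.induction_on with
  | one => exact ⟨1, map_one _⟩
  | of i a =>
    refine ⟨FreeMonoid.of ⟨i, a⟩, ?_⟩
    unfold le_q
    rw [FreeMonoid.lift_eval_of]
  | mul x y hx hy =>
    obtain ⟨w, rfl⟩ := hx
    obtain ⟨w', rfl⟩ := hy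
    exact ⟨w * w', map_mul _ _ _⟩

/-- Elements of the normal closure. -/
theorem le_normal {m : ℕ} (wr : Fin m → FreeMonoid (Σ i, A i)) (z : Monoid.CoprodI A)
    (hz : z ∈ Subgroup.normalClosure (Set.range fun l => le_q A (wr l))) :
    ∃ w, le_q A w = z ∧ ∃ X : Set (Σ i, A i), X.Finite ∧ ∀ (H : Type u) [Group H]
      (g : ∀ i, A i → H), le_PM g X →
        le_ev g w ∈ Subgroup.normalClosure (Set.range fun l => le_ev g (wr l)) := by
  have hinv : ∀ w w' : FreeMonoid (Σ i, A i), le_q A w' = (le_q A w)⁻¹ →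
      ∃ X : Set (Σ i, A i), X.Finite ∧ ∀ (H : Type u) [Group H]
      (g : ∀ i, A i → H), le_PM g X → le_ev g w' = (le_ev g w)⁻¹ := by
    intro w w' h
    obtain ⟨X, hX, h1⟩ := le_main (w * w') 1 (by rw [map_mul, h, mul_inv_cancel, map_one])
    refine ⟨X, hX, fun H _ g hg => ?_⟩
    have h2 := h1 H g hg
    rw [map_mul, map_one] at h2
    exact (inv_eq_of_mul_eq_one_right h2).symm
  induction hz using Subgroup.closure_induction with
  | mem x hx =>
    obtain ⟨a, ha, hax⟩ := Group.mem_conjugatesOfSet_iff.1 hx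
    obtain ⟨l, rfl⟩ := ha
    obtain ⟨g, rfl⟩ := isConj_iff.1 hax
    obtain ⟨w, rfl⟩ := le_q_surj g
    obtain ⟨w', hw'⟩ := le_q_surj (le_q A w)⁻¹
    obtain ⟨X, hX, h⟩ := hinv w w' hw'
    refine ⟨w * wr l * w', by rw [map_mul, map_mul, hw'], X, hX, fun H _ g hg => ?_⟩
    rw [map_mul, map_mul, h H g hg]
    exact Subgroup.normalClosure_normal.conj_mem _
      (Subgroup.subset_normalClosure (Set.mem_range_self l)) _
  | one =>
    exact ⟨1, map_one _, ∅, Set.finite_empty, fun H _ g _ => by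
      rw [map_one]
      exact Subgroup.one_mem _⟩
  | mul x y _ _ ihx ihy =>
    obtain ⟨w, hw, X, hX, h⟩ := ihx
    obtain ⟨w', hw', Y, hY, h'⟩ := ihy
    refine ⟨w * w', by rw [map_mul, hw, hw'], X ∪ Y, hX.union hY, fun H _ g hg => ?_⟩
    rw [map_mul]
    exact Subgroup.mul_mem _ (h H g (hg.mono Set.subset_union_left))
      (h' H g (hg.mono Set.subset_union_right))
  | inv x _ ihx =>
    obtain ⟨w, hw, X, hX, h⟩ := ihx
    obtain ⟨w', hw'⟩ := le_q_surj (le_q A w)⁻¹
    obtain ⟨Y, hY, h'⟩ := hinv w w' hw'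
    refine ⟨w', by rw [hw', hw], X ∪ Y, hX.union hY, fun H _ g hg => ?_⟩
    rw [h' H g (hg.mono Set.subset_union_right)]
    exact Subgroup.inv_mem _ (h H g (hg.mono Set.subset_union_left))

theorem le_word {m : ℕ} (wr : Fin m → FreeMonoid (Σ i, A i)) (w : FreeMonoid (Σ i, A i))
    (hz : le_q A w ∈ Subgroup.normalClosure (Set.range fun l => le_q A (wr l))) :
    ∃ X : Set (Σ i, A i), X.Finite ∧ ∀ (H : Type u) [Group H]
      (g : ∀ i, A i → H), le_PM g X →
        le_ev g w ∈ Subgroup.normalClosure (Set.range fun l => le_ev g (wr l)) := by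
  obtain ⟨w', hw', X, hX, h⟩ := le_normal wr _ hz
  obtain ⟨Y, hY, h'⟩ := le_main w w' hw'.symm
  refine ⟨X ∪ Y, hX.union hY, fun H _ g hg => ?_⟩
  rw [h' H g (hg.mono Set.subset_union_right)]
  exact h H g (hg.mono Set.subset_union_left)

end

/-- Reduced words go to nontrivial elements. -/
theorem le_reduced {ι : Type} {A : ι → Type u} [∀ i, Group (A i)] (S : Finset ι)
    (x : Monoid.CoprodI fun i : S => A i) (hx : x ≠ 1) :
    ∃ (L : List (Σ i, A i)),
      Monoid.CoprodI.lift (M := fun i : S => A i)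
        (fun i => Monoid.CoprodI.of (i := (i : ι))) x = le_q A (FreeMonoid.ofList L) ∧
      (∀ p ∈ L, p.2 ≠ 1) ∧
      ∀ (V : ι → Type u) (_ : ∀ i, Group (V i)) (f : ∀ i, A i → V i),
        (∀ p ∈ L, f p.1 p.2 ≠ 1) →
        ∃ y : Monoid.CoprodI fun i : S => V i, y ≠ 1 ∧
          Monoid.CoprodI.lift (M := fun i : S => V i)
            (fun i => Monoid.CoprodI.of (i := (i : ι))) y =
            le_ev (fun i a => Monoid.CoprodI.of (f i a)) (FreeMonoid.ofList L) := by
  classical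
  let W := Monoid.CoprodI.Word.equiv x
  have hW : W.prod = x := Monoid.CoprodI.Word.equiv.symm_apply_apply x
  refine ⟨W.toList.map fun p => ⟨(p.1 : ι), p.2⟩, ?_, ?_, ?_⟩
  · rw [← hW]
    unfold Monoid.CoprodI.Word.prod le_q
    rw [map_list_prod, FreeMonoid.lift_apply, FreeMonoid.toList_ofList, List.map_map, List.map_map]
    congr 1
  · intro p hp
    obtain ⟨q, hq, rfl⟩ := List.mem_map.1 hp
    exact W.ne_one q hq
  · intro V _ f hf
    let W' : Monoid.CoprodI.Word fun i : S => V i :=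
      { toList := W.toList.map fun p => ⟨p.1, f p.1 p.2⟩
        ne_one := by
          intro p hp
          obtain ⟨q, hq, rfl⟩ := List.mem_map.1 hp
          exact hf ⟨(q.1 : ι), q.2⟩ (List.mem_map.2 ⟨q, hq, rfl⟩)
        chain_ne := by
          rw [List.isChain_map]
          exact W.chain_ne }
    refine ⟨W'.prod, ?_, ?_⟩
    · intro h
      have h1 : W' = Monoid.CoprodI.Word.empty := by
        apply Monoid.CoprodI.Word.equiv.symm.injective
        change W'.prod = Monoid.CoprodI.Word.prod Monoid.CoprodI.Word.empty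
        rw [h, Monoid.CoprodI.Word.prod_empty]
      have h2 : W'.toList = [] := by rw [h1]; rfl
      have h3 : W.toList = [] := List.map_eq_nil_iff.1 h2
      apply hx
      rw [← hW]
      unfold Monoid.CoprodI.Word.prod
      rw [h3]
      rfl
    · unfold Monoid.CoprodI.Word.prod le_ev
      rw [map_list_prod, FreeMonoid.lift_apply, FreeMonoid.toList_ofList, List.map_map,
        List.map_map, List.map_map]
      congr 1

/-- The theorem for locally embeddable groups. -/
theorem main_locEmb {n m : ℕ} (hmn : m ≤ n) {A : Fin n → Type u} [∀ i, Group (A i)]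
    (hA : ∀ i, LocEmb (A i)) (r : Fin m → Monoid.CoprodI A) :
    ∃ S : Finset (Fin n), S.card = n - m ∧
      ∀ x : Monoid.CoprodI fun i : S => A i, Monoid.CoprodI.lift (M := fun i : S => A i)
        (fun i => Monoid.CoprodI.of (i := (i : Fin n))) x ∈ Subgroup.normalClosure (Set.range r) →
        x = 1 := by
  classical
  by_contra hcon
  push Not at hcon
  choose wr hwr using fun l => le_q_surj (r l)
  have hr : Set.range r = Set.range fun l => le_q A (wr l) :=
    congrArg Set.range (funext fun l => (hwr l).symm)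
  -- the finite set for every `S`
  have hS : ∀ S : Finset (Fin n), ∃ X : Set (Σ i, A i), X.Finite ∧ (S.card = n - m →
      ∃ L : List (Σ i, A i), (∀ (V : Fin n → Type u) (_ : ∀ i, Group (V i))
        (f : ∀ i, A i → V i), (∀ p ∈ L, f p.1 p.2 ≠ 1) →
        ∃ y : Monoid.CoprodI fun i : S => V i, y ≠ 1 ∧
          Monoid.CoprodI.lift (M := fun i : S => V i)
            (fun i => Monoid.CoprodI.of (i := (i : Fin n))) y =
            le_ev (fun i a => Monoid.CoprodI.of (f i a)) (FreeMonoid.ofList L)) ∧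
        (∀ p ∈ L, p ∈ X ∧ p.2 ≠ 1) ∧ ∀ (H : Type u) [Group H] (g : ∀ i, A i → H), le_PM g X →
          le_ev g (FreeMonoid.ofList L) ∈
            Subgroup.normalClosure (Set.range fun l => le_ev g (wr l))) := by
    intro S
    by_cases hc : S.card = n - m
    · obtain ⟨x, hxN, hx1⟩ := hcon S hc
      obtain ⟨L, hL, hL1, hLV⟩ := le_reduced S x hx1
      rw [hL, hr] at hxN
      obtain ⟨X, hX, h⟩ := le_word wr _ hxN
      refine ⟨X ∪ {p | p ∈ L}, hX.union (List.finite_toSet L), fun _ => ⟨L, hLV, ?_, ?_⟩⟩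
      · intro p hp
        exact ⟨Or.inr hp, hL1 p hp⟩
      · intro H _ g hg
        exact h H g (hg.mono Set.subset_union_left)
    · exact ⟨∅, Set.finite_empty, fun h => absurd h hc⟩
  choose X hX hS using hS
  -- the partial homomorphisms
  have hT : (⋃ S, X S).Finite := Set.finite_iUnion hX
  have hf : ∀ i, ∃ (l : ℕ) (B : Fin l → Type u) (_ : ∀ j, Group (B j))
      (f : A i → Monoid.CoprodI B), (∀ j, RankOne (B j)) ∧
      (∀ x ∈ insert 1 ((fun a : A i => (⟨i, a⟩ : Σ i, A i)) ⁻¹' ⋃ S, X S),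
        ∀ y ∈ insert 1 ((fun a : A i => (⟨i, a⟩ : Σ i, A i)) ⁻¹' ⋃ S, X S),
          f (x * y) = f x * f y) ∧
      ∀ x ∈ insert 1 ((fun a : A i => (⟨i, a⟩ : Σ i, A i)) ⁻¹' ⋃ S, X S), x ≠ 1 → f x ≠ 1 :=
    fun i => hA i _ (Set.Finite.insert _ (hT.preimage (sigma_mk_injective.injOn)))
  choose l B iB f hB hfm hf1 using hf
  let V : Fin n → Type u := fun i => Monoid.CoprodI (B i)
  have hf0 : ∀ i, f i 1 = 1 := by
    intro i
    have h := hfm i 1 (Set.mem_insert _ _) 1 (Set.mem_insert _ _)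
    rw [mul_one] at h
    exact (mul_eq_left.1 h.symm)
  obtain ⟨S, hSc, hSV⟩ := main_discr hmn (A := V) (fun i Y _ hY1 => ⟨l i, B i, iB i,
    MonoidHom.id _, hB i, fun x hx h => hY1 (by rw [← (h : x = 1)]; exact hx)⟩)
    (fun j => le_ev (fun i a => Monoid.CoprodI.of (M := V) (f i a)) (wr j))
  obtain ⟨L, hLV, hL1, hLN⟩ := hS S hSc
  obtain ⟨y, hy1, hy⟩ := hLV V (fun i => inferInstance) f (by
    intro p hp
    obtain ⟨h1, h2⟩ := hL1 p hp
    exact hf1 p.1 p.2 (Or.inr (Set.mem_iUnion.2 ⟨S, h1⟩)) h2)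
  apply hy1
  apply hSV y
  rw [hy]
  refine hLN _ _ ⟨?_, ?_⟩
  · intro i
    beta_reduce
    rw [hf0, map_one]
  · intro i x y hx hy
    beta_reduce
    rw [hfm i x (Or.inr (Set.mem_iUnion.2 ⟨S, hx⟩)) y (Or.inr (Set.mem_iUnion.2 ⟨S, hy⟩)), map_mul]

end Pool.Agent.H90.FS
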