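import Mathlib
import Pool.Agent.Lib_helper24.FS.MO

set_option autoImplicit false

/-! Block ST: the two descent steps. -/

namespace Pool.Agent.H90.FS

universe u

theorem cl_step {F : Type u} [Group F] {κ : Type u} [Field κ] [CharZero κ] {Γ Γ' : Type u}
    [Group Γ] [Group Γ'] (π : Γ →* Γ') (hπ : KerTFA π) (ρ : F →* Γ) (δ : F → MonoidAlgebra κ Γ)
    (hδ : ∀ x y, δ (x * y) = δ x + MonoidAlgebra.of κ Γ (ρ x) * δ y) (g : F) (hg : δ g ≠ 0) :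
    ∃ δ' : F → MonoidAlgebra κ Γ',
      (∀ x y, δ' (x * y) = δ' x + MonoidAlgebra.of κ Γ' (π (ρ x)) * δ' y) ∧
      (∀ x, δ x = 0 → δ' x = 0) ∧ ∃ g', δ' g' ≠ 0 := by
  classical
  obtain ⟨Mo, ⟨s₀, hs₀⟩, hMo⟩ := mo_right π hπ (δ g) hg
  have hex : ∃ s, ∃ g', Mo s (δ g') ≠ 0 := ⟨s₀, g, hs₀⟩
  obtain ⟨s, ⟨g', hg'⟩, hmin⟩ : ∃ s, (∃ g', Mo s (δ g') ≠ 0) ∧ ∀ j < s, ∀ x, Mo j (δ x) = 0 := by
    refine ⟨Nat.find hex, Nat.find_spec hex, ?_⟩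
    intro j hj x
    by_contra h
    exact Nat.find_min hex hj ⟨x, h⟩
  refine ⟨fun x => Mo s (δ x), ?_, ?_, g', hg'⟩
  · intro x y
    beta_reduce
    rw [hδ, map_add, hMo s (δ y) (fun j hj => hmin j hj y)]
    congr 2
    rw [MonoidAlgebra.of_apply, MonoidAlgebra.of_apply]
    simp
  · intro x hx
    beta_reduce
    rw [hx, map_zero]

theorem row_step {κ : Type u} [Field κ] [CharZero κ] {Γ Γ' : Type u} [Group Γ] [Group Γ']
    (π : Γ →* Γ') (hπ : KerTFA π) {I J : Type} [Fintype I] (c : I → J → MonoidAlgebra κ Γ)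
    (h : Indep fun i j => MonoidAlgebra.mapDomainRingHom κ π (c i j)) : Indep c := by
  classical
  intro d hd
  by_contra hcon
  push Not at hcon
  obtain ⟨i₀, hi₀⟩ := hcon
  obtain ⟨Mo, ⟨s₀, hs₀⟩, hMo⟩ := mo_left π hπ (d i₀) hi₀
  have hex : ∃ s, ∃ i, Mo s (d i) ≠ 0 := ⟨s₀, i₀, hs₀⟩
  obtain ⟨s, ⟨i, hi⟩, hmin⟩ : ∃ s, (∃ i, Mo s (d i) ≠ 0) ∧ ∀ j < s, ∀ i, Mo j (d i) = 0 := by
    refine ⟨Nat.find hex, Nat.find_spec hex, ?_⟩
    intro j hj x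
    by_contra h
    exact Nat.find_min hex hj ⟨x, h⟩
  apply hi
  refine h (fun i => Mo s (d i)) ?_ i
  intro j
  have h1 := congrArg (Mo s) (hd j)
  rw [map_sum, map_zero] at h1
  rw [← h1]
  exact Finset.sum_congr rfl fun i _ => (hMo s (d i) (fun j hj => hmin j hj i) (c i j)).symm

end Pool.Agent.H90.FS
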