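import Mathlib
import Pool.Agent.Lib_helper90.FS.Defs

set_option autoImplicit false

/-! Small facts about derivations, coefficients and the tower. -/

namespace Pool.Agent.H90.FS

universe u

/-- Coefficients and derivations into the group algebra. -/
theorem rel_ring {F : Type u} [Group F] {m : ℕ} {r : Fin m → F} {κ : Type u} [Field κ]
    {Γ : Type u} [Group Γ] {ρ : F →* Γ} {x : F} {c : Fin m → MonoidAlgebra κ Γ}
    (h : Rel r ρ x c) (δ : F → MonoidAlgebra κ Γ)
    (hδ : ∀ x y, δ (x * y) = δ x + MonoidAlgebra.of κ Γ (ρ x) * δ y) :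
    δ x = ∑ l, c l * δ (r l) :=
  h (MonoidAlgebra κ Γ) (Algebra.lmul κ (MonoidAlgebra κ Γ)) δ fun x y => hδ x y

theorem rel_map {F : Type u} [Group F] {m : ℕ} {r : Fin m → F} {κ : Type u} [Field κ]
    {Γ Γ' : Type u} [Group Γ] [Group Γ'] {ρ : F →* Γ} (π : Γ →* Γ') {x : F}
    {c : Fin m → MonoidAlgebra κ Γ} (h : Rel r ρ x c) :
    Rel r (π.comp ρ) x fun l => MonoidAlgebra.mapDomainRingHom κ π (c l) := by
  intro M _ _ act δ hδ
  have h1 := h M (act.comp (MonoidAlgebra.mapDomainAlgHom κ κ π)) δ (by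
    intro x y
    rw [hδ]
    congr 2
    change act (MonoidAlgebra.of κ Γ' (π (ρ x))) =
      act (MonoidAlgebra.mapDomainAlgHom κ κ π (MonoidAlgebra.of κ Γ (ρ x)))
    congr 1
    rw [MonoidAlgebra.of_apply, MonoidAlgebra.of_apply]
    simp)
  exact h1

/-- Derivations on the factors extend to the free product. -/
theorem ext_der {ι : Type} {A : ι → Type u} [∀ i, Group (A i)] {κ : Type u} [Field κ]
    {Γ : Type u} [Group Γ] (ρ : Monoid.CoprodI A →* Γ) (d : ∀ i, A i → MonoidAlgebra κ Γ)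
    (hd : ∀ i a b, d i (a * b) = d i a + MonoidAlgebra.of κ Γ (ρ (Monoid.CoprodI.of a)) * d i b) :
    ∃ δ : Monoid.CoprodI A → MonoidAlgebra κ Γ,
      (∀ x y, δ (x * y) = δ x + MonoidAlgebra.of κ Γ (ρ x) * δ y) ∧
      ∀ i (a : A i), δ (Monoid.CoprodI.of a) = d i a := by
  let R : Monoid.CoprodI A →* Module.End κ (MonoidAlgebra κ Γ) :=
    ((Algebra.lmul κ (MonoidAlgebra κ Γ) : MonoidAlgebra κ Γ →ₐ[κ] _) :
      MonoidAlgebra κ Γ →* Module.End κ (MonoidAlgebra κ Γ)).comp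
      ((MonoidAlgebra.of κ Γ).comp ρ)
  exact FR.extend (κ := κ) R d fun i a b => hd i a b

theorem der_one {F : Type u} [Group F] {κ : Type u} [Field κ] {Γ : Type u} [Group Γ]
    {ρ : F →* Γ} {δ : F → MonoidAlgebra κ Γ}
    (hδ : ∀ x y, δ (x * y) = δ x + MonoidAlgebra.of κ Γ (ρ x) * δ y) : δ 1 = 0 := by
  have h1 := hδ 1 1
  rw [mul_one, map_one, map_one, one_mul] at h1
  simpa using h1

theorem der_lift_zero {ι : Type} {A : ι → Type u} [∀ i, Group (A i)] {κ : Type u} [Field κ]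
    {Γ : Type u} [Group Γ] {ρ : Monoid.CoprodI A →* Γ} {δ : Monoid.CoprodI A → MonoidAlgebra κ Γ}
    (hδ : ∀ x y, δ (x * y) = δ x + MonoidAlgebra.of κ Γ (ρ x) * δ y) (S : Finset ι)
    (h0 : ∀ i ∈ S, ∀ a : A i, δ (Monoid.CoprodI.of a) = 0)
    (x : Monoid.CoprodI fun i : S => A i) :
    δ (Monoid.CoprodI.lift (M := fun i : S => A i)
      (fun i => Monoid.CoprodI.of (i := (i : ι))) x) = 0 := by
  induction x using Monoid.CoprodI.induction_on with
  | one =>
    rw [map_one]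
    exact der_one hδ
  | of i a =>
    rw [Monoid.CoprodI.lift_of]
    exact h0 i i.2 a
  | mul x y hx hy =>
    rw [map_mul, hδ, hx, hy, mul_zero, add_zero]

/-- The projection of one step of the tower. -/
theorem kerTFA_step {F : Type u} [Group F] {K L : Subgroup F} (hK : K.Normal) (hL : L.Normal)
    (hLK : L ≤ K) (h1 : ∀ x ∈ K, ∀ y ∈ K, x * y * x⁻¹ * y⁻¹ ∈ L)
    (h2 : ∀ x ∈ K, ∀ n : ℕ, 0 < n → x ^ n ∈ L → x ∈ L) :
    ∃ π : F ⧸ L →* F ⧸ K, KerTFA π ∧ Function.Surjective π ∧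
      π.comp (QuotientGroup.mk' L) = QuotientGroup.mk' K := by
  refine ⟨QuotientGroup.map L K (MonoidHom.id F) hLK, ⟨?_, ?_⟩, ?_, ?_⟩
  · intro x y
    induction x using QuotientGroup.induction_on with | H x => ?_
    induction y using QuotientGroup.induction_on with | H y => ?_
    intro hx hy
    have hx' : x ∈ K := (QuotientGroup.eq_one_iff x).1 hx
    have hy' : y ∈ K := (QuotientGroup.eq_one_iff y).1 hy
    rw [← QuotientGroup.mk_mul, ← QuotientGroup.mk_mul, QuotientGroup.eq]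
    have h3 := h1 _ (K.inv_mem hy') _ (K.inv_mem hx')
    have h4 : (x * y)⁻¹ * (y * x) = y⁻¹ * x⁻¹ * (y⁻¹)⁻¹ * (x⁻¹)⁻¹ := by group
    rw [h4]
    exact h3
  · intro x n
    induction x using QuotientGroup.induction_on with | H x => ?_
    intro hx hn hxn
    have hx' : x ∈ K := (QuotientGroup.eq_one_iff x).1 hx
    rw [← QuotientGroup.mk_pow] at hxn
    have h3 : x ^ n ∈ L := (QuotientGroup.eq_one_iff _).1 hxn
    exact (QuotientGroup.eq_one_iff x).2 (h2 x hx' n hn h3)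
  · intro y
    induction y using QuotientGroup.induction_on with | H y => ?_
    exact ⟨QuotientGroup.mk y, rfl⟩
  · rfl

end Pool.Agent.H90.FS
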