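import Mathlib
import Pool.Agent.Lib_helper90.FS.Util
import Pool.Agent.Lib_helper90.FS.ST
import Pool.Agent.Lib_helper98.FS.BA
import Pool.Agent.Lib_helper67.FS.CO
import Pool.Agent.Lib_helper66.FS.FO
import Pool.Agent.Lib_helper83.FS.LZ
import Pool.Agent.Lib_helper83.FS.CT
import Pool.Agent.Lib_helper31.FS.TW
import Pool.Agent.Lib_helper92.FS.WD
import Pool.Agent.Lib_helper67.FS.UP

set_option autoImplicit false

/-! The main theorem for nice factors. -/

namespace Pool.Agent.H90.FS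

universe u

/-- The exponents. -/
theorem exponents {ι : Type} [Fintype ι] [DecidableEq ι] {A : ι → Type u} [∀ i, Group (A i)]
    (τ : ∀ i, A i → ℚ) (hA : ∀ i, Nice (τ i)) :
    ∃ ω : Monoid.CoprodI A → ι → ℚ, ∀ (B : Type u) [AddCommGroup B] [Module ℚ B] (v : ι → B)
      (f : Monoid.CoprodI A → B), (∀ x y, f (x * y) = f x + f y) →
      (∀ i (a : A i), f (Monoid.CoprodI.of a) = τ i a • v i) → ∀ x, f x = ∑ i, ω x i • v i := by
  have hτ1 : ∀ i, τ i 1 = 0 := by
    intro i
    have := (hA i).add 1 1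
    simpa using this
  let ωh : Monoid.CoprodI A →* Multiplicative (ι → ℚ) :=
    Monoid.CoprodI.lift fun i =>
      { toFun := fun a => Multiplicative.ofAdd (Pi.single i (τ i a))
        map_one' := by rw [hτ1, Pi.single_zero]; rfl
        map_mul' := by
          intro a b
          rw [(hA i).add, Pi.single_add]
          rfl }
  refine ⟨fun x => Multiplicative.toAdd (ωh x), ?_⟩
  intro B _ _ v f hf hfof x
  have hf1 : f 1 = 0 := by
    have := hf 1 1
    simpa using this
  beta_reduce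
  induction x using Monoid.CoprodI.induction_on with
  | one =>
    rw [hf1, map_one, toAdd_one]
    simp
  | of i a =>
    have h1 : ωh (Monoid.CoprodI.of a) = Multiplicative.ofAdd (Pi.single i (τ i a)) :=
      Monoid.CoprodI.lift_of _ a
    rw [hfof, h1, toAdd_ofAdd, Finset.sum_eq_single i]
    · rw [Pi.single_eq_same]
    · intro j _ hj
      rw [Pi.single_eq_of_ne hj, zero_smul]
    · intro h
      exact absurd (Finset.mem_univ _) h
  | mul x y hx hy =>
    rw [hf, hx, hy, map_mul, toAdd_mul, ← Finset.sum_add_distrib]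
    refine Finset.sum_congr rfl fun i _ => ?_
    rw [Pi.add_apply, add_smul]

/-- A derivation at any level which kills the relators and the factors in `U` is zero. -/
theorem col_zero {ι : Type} [Fintype ι] [DecidableEq ι] {A : ι → Type u} [∀ i, Group (A i)]
    (τ : ∀ i, A i → ℚ) (hA : ∀ i, Nice (τ i)) {m : ℕ} (r : Fin m → Monoid.CoprodI A)
    (ω : Monoid.CoprodI A → ι → ℚ)
    (hω : ∀ (B : Type u) [AddCommGroup B] [Module ℚ B] (v : ι → B) (f : Monoid.CoprodI A → B),
      (∀ x y, f (x * y) = f x + f y) →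
      (∀ i (a : A i), f (Monoid.CoprodI.of a) = τ i a • v i) → ∀ x, f x = ∑ i, ω x i • v i)
    (U : Finset ι)
    (hU : ∀ (B : Type u) [AddCommGroup B] [Module ℚ B] (h : ι → B),
      (∀ l, ∑ i, ω (r l) i • h i = 0) → (∀ i ∈ U, h i = 0) → ∀ i, h i = 0)
    (K : ℕ → Subgroup (Monoid.CoprodI A)) (hK0 : K 0 = ⊤) (hKn : ∀ k, (K k).Normal)
    (hKl : ∀ k, K (k + 1) ≤ K k)
    (hKc : ∀ k, ∀ x ∈ K k, ∀ y ∈ K k, x * y * x⁻¹ * y⁻¹ ∈ K (k + 1))
    (hKt : ∀ k, ∀ x ∈ K k, ∀ n : ℕ, 0 < n → x ^ n ∈ K (k + 1) → x ∈ K (k + 1))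
    {κ : Type u} [Field κ] [CharZero κ] (k : ℕ)
    (δ : Monoid.CoprodI A → MonoidAlgebra κ (Monoid.CoprodI A ⧸ K k))
    (hδ : ∀ x y, δ (x * y) = δ x + MonoidAlgebra.of κ _ (QuotientGroup.mk' (K k) x) * δ y)
    (hr : ∀ l, δ (r l) = 0) (h0 : ∀ i ∈ U, ∀ a : A i, δ (Monoid.CoprodI.of a) = 0) :
    ∀ x, δ x = 0 := by
  induction k with
  | zero =>
    let _ : Algebra ℚ κ := DivisionRing.toRatAlgebra
    have hadd : ∀ x y, δ (x * y) = δ x + δ y := by
      intro x y
      rw [hδ]
      have h1 : QuotientGroup.mk' (K 0) x = 1 := by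
        rw [← MonoidHom.mem_ker, QuotientGroup.ker_mk', hK0]
        exact Subgroup.mem_top x
      rw [h1, map_one, one_mul]
    have h1 : ∀ i, ∃ w : MonoidAlgebra κ (Monoid.CoprodI A ⧸ K 0), ∀ a : A i,
        δ (Monoid.CoprodI.of a) = τ i a • w := fun i =>
      (hA i).univ _ (fun a => δ (Monoid.CoprodI.of a)) fun a b => by
        beta_reduce
        rw [map_mul, hadd]
    choose w hw using h1
    have h2 := hω _ w δ hadd hw
    have h3 : ∀ i, w i = 0 := by
      refine hU _ w ?_ ?_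
      · intro l
        rw [← h2, hr]
      · intro i hi
        obtain ⟨a, ha⟩ := (hA i).ne
        have h4 := hw i a
        rw [h0 i hi] at h4
        exact (smul_eq_zero.1 h4.symm).resolve_left ha
    intro x
    rw [h2]
    exact Finset.sum_eq_zero fun i _ => by rw [h3, smul_zero]
  | succ k ih =>
    by_contra hcon
    push Not at hcon
    obtain ⟨g, hg⟩ := hcon
    have := hKn k
    have := hKn (k + 1)
    obtain ⟨π, hπ, -, hπc⟩ := kerTFA_step (hKn k) (hKn (k + 1)) (hKl k) (hKc k) (hKt k)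
    obtain ⟨δ', hδ', hz, g', hg'⟩ := cl_step π hπ (QuotientGroup.mk' (K (k + 1))) δ hδ g hg
    apply hg'
    refine ih δ' ?_ ?_ ?_ g'
    · intro x y
      rw [hδ', ← hπc]
      rfl
    · intro l
      exact hz _ (hr l)
    · intro i hi a
      exact hz _ (h0 i hi a)

/-- The rows are independent at every level. -/
theorem rows_indep {F : Type u} [Group F] {m : ℕ} (r : Fin m → F) {κ : Type u} [Field κ]
    [CharZero κ] {Γ : Type u} [Group Γ] (θ : F →* Γ) {I : Type} [Fintype I] (z : I → F)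
    (hbase : ∀ c : I → Fin m → MonoidAlgebra κ Γ, (∀ i, Rel r θ (z i) (c i)) → Indep c)
    (K : ℕ → Subgroup F) (hK1 : K 1 = θ.ker) (hKn : ∀ k, (K k).Normal)
    (hKl : ∀ k, K (k + 1) ≤ K k)
    (hKc : ∀ k, ∀ x ∈ K k, ∀ y ∈ K k, x * y * x⁻¹ * y⁻¹ ∈ K (k + 1))
    (hKt : ∀ k, ∀ x ∈ K k, ∀ n : ℕ, 0 < n → x ^ n ∈ K (k + 1) → x ∈ K (k + 1)) (k : ℕ)
    (c : I → Fin m → MonoidAlgebra κ (F ⧸ K (k + 1)))
    (hc : ∀ i, Rel r (QuotientGroup.mk' (K (k + 1))) (z i) (c i)) : Indep c := by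
  induction k with
  | zero =>
    have := hKn 1
    let ψ : F ⧸ K 1 →* Γ := QuotientGroup.lift (K 1) θ (by
      intro x hx
      rw [hK1] at hx
      exact hx)
    have hψ : KerTFA ψ := by
      have h1 : ∀ x, ψ x = 1 → x = 1 := by
        intro x
        induction x using QuotientGroup.induction_on with | H x => ?_
        intro hx
        have h2 : θ x = 1 := hx
        refine (QuotientGroup.eq_one_iff x).2 ?_
        rw [hK1]
        exact h2
      refine ⟨?_, ?_⟩
      · intro x y hx hy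
        rw [h1 x hx, h1 y hy]
      · intro x n hx _ _
        exact h1 x hx
    refine row_step ψ hψ c (hbase _ fun i => ?_)
    have h3 := rel_map ψ (hc i)
    exact h3
  | succ k ih =>
    have := hKn (k + 1)
    have := hKn (k + 2)
    obtain ⟨π, hπ, -, hπc⟩ := kerTFA_step (hKn (k + 1)) (hKn (k + 2)) (hKl (k + 1))
      (hKc (k + 1)) (hKt (k + 1))
    refine row_step π hπ c (ih _ fun i => ?_)
    have h3 := rel_map π (hc i)
    rw [hπc] at h3
    exact h3

theorem up_tower {F : Type u} [Group F] (K : ℕ → Subgroup F) (hK0 : K 0 = ⊤)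
    (hKn : ∀ k, (K k).Normal) (hKl : ∀ k, K (k + 1) ≤ K k)
    (hKc : ∀ k, ∀ x ∈ K k, ∀ y ∈ K k, x * y * x⁻¹ * y⁻¹ ∈ K (k + 1))
    (hKt : ∀ k, ∀ x ∈ K k, ∀ n : ℕ, 0 < n → x ^ n ∈ K (k + 1) → x ∈ K (k + 1)) (k : ℕ) :
    UniqueProds (F ⧸ K k) ∧ Fol (F ⧸ K k) := by
  induction k with
  | zero =>
    have hsub : Subsingleton (F ⧸ K 0) := by
      rw [hK0]
      exact QuotientGroup.subsingleton_quotient_top
    refine ⟨⟨?_⟩, ?_⟩
    · rintro P Q ⟨a, ha⟩ ⟨b, hb⟩
      exact ⟨a, ha, b, hb, fun a' b' _ _ _ => ⟨Subsingleton.elim _ _, Subsingleton.elim _ _⟩⟩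
    intro T _ q
    refine ⟨{1}, ∅, Finset.empty_subset _, Finset.singleton_nonempty _, ?_, by simp⟩
    intro f _ _ t _
    rw [Finset.mem_singleton]
    exact Subsingleton.elim _ _
  | succ k ih =>
    have := hKn k
    have := hKn (k + 1)
    obtain ⟨π, hπ, hs, -⟩ := kerTFA_step (hKn k) (hKn (k + 1)) (hKl k) (hKc k) (hKt k)
    exact ⟨up_ext π hπ ih.1, fol_ext π hs hπ.1 ih.2⟩

/-- BLOCK MT. The main theorem for nice factors. -/
theorem main_nice {ι : Type} [Fintype ι] [DecidableEq ι] {A : ι → Type u} [∀ i, Group (A i)]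
    (τ : ∀ i, A i → ℚ) (hA : ∀ i, Nice (τ i)) {m : ℕ} (r : Fin m → Monoid.CoprodI A) :
    ∃ S : Finset ι, Fintype.card ι ≤ S.card + m ∧
      ∀ x : Monoid.CoprodI fun i : S => A i, Monoid.CoprodI.lift (M := fun i : S => A i)
        (fun i => Monoid.CoprodI.of (i := (i : ι))) x ∈ Subgroup.normalClosure (Set.range r) →
        x = 1 := by
  classical
  obtain ⟨ω, hω⟩ := exponents τ hA
  obtain ⟨Γ, _, _, v, U, hU, hvr, hUz⟩ := level_zero.{u} fun l => ω (r l)
  have hτ1 : ∀ i, τ i 1 = 0 := by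
    intro i
    have := (hA i).add 1 1
    simpa using this
  let θ : Monoid.CoprodI A →* Multiplicative Γ :=
    Monoid.CoprodI.lift fun i =>
      { toFun := fun a => Multiplicative.ofAdd (τ i a • v i)
        map_one' := by rw [hτ1, zero_smul]; rfl
        map_mul' := by
          intro a b
          rw [(hA i).add, add_smul]
          rfl }
  have hθof : ∀ i (a : A i), θ (Monoid.CoprodI.of a) = Multiplicative.ofAdd (τ i a • v i) :=
    fun i a => Monoid.CoprodI.lift_of _ a
  have hθω : ∀ x, Multiplicative.toAdd (θ x) = ∑ i, ω x i • v i := by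
    refine hω Γ v (fun x => Multiplicative.toAdd (θ x)) ?_ ?_
    · intro x y
      beta_reduce
      rw [map_mul, toAdd_mul]
    · intro i a
      beta_reduce
      rw [hθof, toAdd_ofAdd]
  have hθr : ∀ l, θ (r l) = 1 := by
    intro l
    apply Multiplicative.toAdd.injective
    rw [hθω, hvr, toAdd_one]
  set N := Subgroup.normalClosure (Set.range r) with hN
  obtain ⟨K, hK0, hK1, hKn, hKN, hKl, hKc, hKt, hKp⟩ := tower N θ.ker
    Subgroup.normalClosure_normal (MonoidHom.normal_ker θ) (by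
      refine Subgroup.normalClosure_le_normal ?_
      rintro _ ⟨l, rfl⟩
      exact hθr l) (by
      intro x y
      rw [MonoidHom.mem_ker]
      simp only [map_mul, map_inv]
      rw [mul_comm (θ x) (θ y)]
      group) (by
      intro x n hn hx
      rw [MonoidHom.mem_ker] at hx ⊢
      rw [map_pow] at hx
      have h1 : (n : ℚ) • Multiplicative.toAdd (θ x) = 0 := by
        have h2 := congrArg Multiplicative.toAdd hx
        rw [toAdd_pow, toAdd_one] at h2
        rw [Nat.cast_smul_eq_nsmul]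
        exact h2
      have h3 := (smul_eq_zero.1 h1).resolve_left (by exact_mod_cast hn.ne')
      exact Multiplicative.toAdd.injective h3)
  have hKanti : ∀ k j, k ≤ j → K j ≤ K k := fun k j h => antitone_nat_of_succ_le hKl h
  -- the elements `z i`
  let E : ι → Prop := fun i => ∀ a : A i, (∀ k, Monoid.CoprodI.of a ∈ K k) → a = 1
  have hzex : ∀ i, ∃ a : A i, ¬ E i → a ≠ 1 ∧ ∀ k, Monoid.CoprodI.of a ∈ K k := by
    intro i
    by_cases h : E i
    · exact ⟨1, fun h' => absurd h h'⟩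
    · have h' := h
      simp only [E] at h'
      push Not at h'
      obtain ⟨a, ha, ha1⟩ := h'
      exact ⟨a, fun _ => ⟨ha1, ha⟩⟩
  choose z hz using hzex
  let UZ : Finset ι := U.filter fun i => ¬ E i
  let UE : Finset ι := U.filter E
  have hUZ : UZ ⊆ U := Finset.filter_subset _ _
  have hvne : ∀ i ∈ U, v i ≠ 0 := fun i hi => hU.ne_zero ⟨i, hi⟩
  have hzτ : ∀ i ∈ UZ, z i ≠ 1 ∧ τ i (z i) = 0 := by
    intro i hi
    have hi' := Finset.mem_filter.1 hi
    refine ⟨(hz i hi'.2).1, ?_⟩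
    have h1 := (hz i hi'.2).2 1
    rw [hK1, MonoidHom.mem_ker, hθof] at h1
    have h2 : τ i (z i) • v i = 0 := congrArg Multiplicative.toAdd h1
    exact (smul_eq_zero.1 h2).resolve_right (hvne i hi'.1)
  obtain ⟨κ, _, _, hbase⟩ := base_rows τ hA v θ hθof UZ
    (hU.comp (fun i : UZ => (⟨i, hUZ i.2⟩ : U)) (fun a b h =>
      Subtype.ext (congrArg (fun x : U => (x : ι)) h))) z hzτ
  -- the level
  have hex : ∀ S : Finset ι, ∃ k₀ : ℕ, ∀ k, k₀ ≤ k → S ⊆ UE →
      (∃ x : Monoid.CoprodI fun i : S => A i, x ≠ 1 ∧ Monoid.CoprodI.lift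
        (M := fun i : S => A i) (fun i => Monoid.CoprodI.of (i := (i : ι))) x ∈ N) →
      ∃ (x' : Monoid.CoprodI fun i : S => A i) (e : ι), e ∈ S ∧
        (∀ k, Monoid.CoprodI.lift (M := fun i : S => A i)
          (fun i => Monoid.CoprodI.of (i := (i : ι))) x' ∈ K k) ∧
        ∀ (δ : Monoid.CoprodI A → MonoidAlgebra κ (Monoid.CoprodI A ⧸ K k)),
        (∀ x y, δ (x * y) = δ x + MonoidAlgebra.of κ _ (QuotientGroup.mk' (K k) x) * δ y) →
        (∀ i, i ≠ e → ∀ a : A i, δ (Monoid.CoprodI.of a) = 0) →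
        (∀ a : A e, δ (Monoid.CoprodI.of a) =
          MonoidAlgebra.of κ _ (QuotientGroup.mk' (K k) (Monoid.CoprodI.of a)) - 1) →
        δ (Monoid.CoprodI.lift (M := fun i : S => A i)
          (fun i => Monoid.CoprodI.of (i := (i : ι))) x') ≠ 0 := by
    intro S
    by_cases hS : S ⊆ UE ∧ ∃ x : Monoid.CoprodI fun i : S => A i, x ≠ 1 ∧ Monoid.CoprodI.lift
        (M := fun i : S => A i) (fun i => Monoid.CoprodI.of (i := (i : ι))) x ∈ N
    · obtain ⟨hSU, x, hx1, hxN⟩ := hS
      obtain ⟨x', hx', e, he, k₀, hk₀⟩ := word K hKn hKl S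
        (fun i hi => (Finset.mem_filter.1 (hSU hi)).2) x hx1 (fun k => hKN k hxN)
      exact ⟨k₀, fun k hk _ _ => ⟨x', e, he, hx', fun δ h1 h2 h3 => hk₀ k hk κ δ h1 h2 h3⟩⟩
    · exact ⟨0, fun k _ h1 h2 => absurd ⟨h1, h2⟩ hS⟩
  choose k₀ hk₀ using hex
  obtain ⟨k, hk⟩ : ∃ k, ∀ S, k₀ S ≤ k + 1 :=
    ⟨Finset.univ.sup k₀, fun S => (Finset.le_sup (Finset.mem_univ S)).trans (Nat.le_succ _)⟩
  have hword := fun S => hk₀ S (k + 1) (hk S)
  have inst := hKn (k + 1)
  obtain ⟨hup, hfol⟩ := up_tower K hK0 hKn hKl hKc hKt (k + 1)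
  set ρ := QuotientGroup.mk' (K (k + 1)) with hρ
  have hρker : ρ.ker = K (k + 1) := QuotientGroup.ker_mk' _
  have hrel : ∀ x, x ∈ K (k + 2) → ∃ c, Rel (κ := κ) r ρ x c := by
    intro x hx
    obtain ⟨n, hn, hxn⟩ := hKp k x hx
    refine rel_pow r ρ ?_ x ?_ n hn ?_
    · intro l
      rw [← MonoidHom.mem_ker, hρker]
      exact hKN _ (Subgroup.subset_normalClosure ⟨l, rfl⟩)
    · rw [← MonoidHom.mem_ker, hρker]
      exact hKl _ hx
    · rw [hρker]
      exact hxn
  -- the derivations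
  have hder : ∀ e : ι, ∃ δ : Monoid.CoprodI A → MonoidAlgebra κ (Monoid.CoprodI A ⧸ K (k + 1)),
      (∀ x y, δ (x * y) = δ x + MonoidAlgebra.of κ _ (ρ x) * δ y) ∧
      (∀ i, i ≠ e → ∀ a : A i, δ (Monoid.CoprodI.of a) = 0) ∧
      ∀ a : A e, δ (Monoid.CoprodI.of a) = MonoidAlgebra.of κ _ (ρ (Monoid.CoprodI.of a)) - 1 := by
    intro e
    obtain ⟨δ, hδ, hδof⟩ := ext_der (κ := κ) ρ
      (Function.update (β := fun i => A i → MonoidAlgebra κ (Monoid.CoprodI A ⧸ K (k + 1)))
        (fun _ _ => 0) e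
        (fun a => MonoidAlgebra.of κ _ (ρ (Monoid.CoprodI.of a)) - 1)) (by
        intro i a b
        by_cases hie : i = e
        · subst hie
          rw [Function.update_self, map_mul, map_mul, map_mul, mul_sub, mul_one]
          abel
        · rw [Function.update_of_ne hie, mul_zero, add_zero])
    refine ⟨δ, hδ, ?_, ?_⟩
    · intro i hi a
      rw [hδof, Function.update_of_ne hi]
    · intro a
      rw [hδof, Function.update_self]
  choose D hD hD0 hDe using hder
  have hthe : ∀ e : ι, ∃ δ : Monoid.CoprodI A → MonoidAlgebra κ (Monoid.CoprodI A ⧸ K (k + 1)),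
      (∀ x y, δ (x * y) = δ x + MonoidAlgebra.of κ _ (ρ x) * δ y) ∧
      (∀ i, i ≠ e → ∀ a : A i, δ (Monoid.CoprodI.of a) = 0) ∧
      ∃ a : A e, δ (Monoid.CoprodI.of a) ≠ 0 := by
    intro e
    by_cases hne : ∃ a : A e, ρ (Monoid.CoprodI.of a) ≠ 1
    · obtain ⟨a, ha⟩ := hne
      refine ⟨D e, hD e, hD0 e, a, ?_⟩
      rw [hDe, sub_ne_zero]
      intro h
      apply ha
      have h1 : MonoidAlgebra.of κ _ (ρ (Monoid.CoprodI.of a)) =
        MonoidAlgebra.of κ (Monoid.CoprodI A ⧸ K (k + 1)) 1 := by rw [h, map_one]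
      exact MonoidAlgebra.of_injective h1
    · push Not at hne
      let _ : Algebra ℚ κ := DivisionRing.toRatAlgebra
      obtain ⟨δ, hδ, hδof⟩ := ext_der (κ := κ) ρ
        (Function.update (β := fun i => A i → MonoidAlgebra κ (Monoid.CoprodI A ⧸ K (k + 1)))
          (fun _ _ => 0) e
          (fun a => τ e a • (1 : MonoidAlgebra κ (Monoid.CoprodI A ⧸ K (k + 1))))) (by
          intro i a b
          by_cases hie : i = e
          · subst hie
            rw [Function.update_self, hne, map_one, one_mul, (hA i).add, add_smul]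
          · rw [Function.update_of_ne hie, mul_zero, add_zero])
      obtain ⟨a, ha⟩ := (hA e).ne
      refine ⟨δ, hδ, ?_, a, ?_⟩
      · intro i hi a
        rw [hδof, Function.update_of_ne hi]
      · rw [hδof, Function.update_self]
        exact smul_ne_zero ha one_ne_zero
  choose Th hTh hTh0 hThne using hthe
  -- the columns
  let Θ : Fin m → {y // y ∉ U} → MonoidAlgebra κ (Monoid.CoprodI A ⧸ K (k + 1)) :=
    fun l y => Th y (r l)
  have hΘ : ∀ u : {y // y ∉ U} → MonoidAlgebra κ (Monoid.CoprodI A ⧸ K (k + 1)),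
      (∀ j, ∑ y, Θ j y * u y = 0) → ∀ y, u y = 0 := by
    intro u hu
    have h1 := col_zero τ hA r ω hω U hUz K hK0 hKn hKl hKc hKt (k + 1)
      (fun x => ∑ y : {y // y ∉ U}, Th y x * u y) (by
        intro x y
        beta_reduce
        rw [Finset.mul_sum, ← Finset.sum_add_distrib]
        refine Finset.sum_congr rfl fun y' _ => ?_
        rw [hTh, add_mul, mul_assoc]) hu (by
        intro i hi a
        beta_reduce
        refine Finset.sum_eq_zero fun y _ => ?_
        rw [hTh0 y.1 i (fun h => y.2 (h ▸ hi)) a, zero_mul])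
    intro y
    obtain ⟨a, ha⟩ := hThne y.1
    have h2 := h1 (Monoid.CoprodI.of a)
    beta_reduce at h2
    rw [Finset.sum_eq_single y] at h2
    · exact (mul_eq_zero.1 h2).resolve_left ha
    · intro y' _ hy'
      rw [hTh0 y'.1 y.1 (fun h => hy' (Subtype.ext h.symm)) a, zero_mul]
    · intro h
      exact absurd (Finset.mem_univ _) h
  -- the set `S'`
  let φ : (Fin m → MonoidAlgebra κ (Monoid.CoprodI A ⧸ K (k + 1))) → ι →
    MonoidAlgebra κ (Monoid.CoprodI A ⧸ K (k + 1)) := fun c i => ∑ l, c l * D i (r l)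
  let ann : (Fin m → MonoidAlgebra κ (Monoid.CoprodI A ⧸ K (k + 1))) → Prop :=
    fun c => ∀ y ∉ U, ∑ l, c l * Th y (r l) = 0
  obtain ⟨S, hS, hSmax⟩ := Finset.exists_max_image
    ((Finset.univ : Finset (Finset ι)).filter fun S => S ⊆ UE ∧ ∀ c, ann c →
      (∀ i ∈ UE, i ∉ S → φ c i = 0) → ∀ i ∈ S, φ c i = 0) Finset.card ⟨∅, by
        rw [Finset.mem_filter]
        refine ⟨Finset.mem_univ _, Finset.empty_subset _, ?_⟩
        intro c _ _ i hi
        exact absurd hi (Finset.notMem_empty i)⟩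
  obtain ⟨-, hSU, hSc⟩ := Finset.mem_filter.1 hS
  have hlam : ∀ e, ∃ c : Fin m → MonoidAlgebra κ (Monoid.CoprodI A ⧸ K (k + 1)),
      e ∈ UE → e ∉ S → ann c ∧ (∀ i ∈ UE, i ∉ S → i ≠ e → φ c i = 0) ∧ φ c e ≠ 0 := by
    intro e
    by_cases he : e ∈ UE ∧ e ∉ S
    · have h1 : ¬ (∀ c, ann c → (∀ i ∈ UE, i ∉ insert e S → φ c i = 0) →
          ∀ i ∈ insert e S, φ c i = 0) := by
        intro h
        have h2 := hSmax (insert e S) (Finset.mem_filter.2 ⟨Finset.mem_univ _,
          Finset.insert_subset he.1 hSU, h⟩)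
        rw [Finset.card_insert_of_notMem he.2] at h2
        omega
      push Not at h1
      obtain ⟨c, hc, hc0, i, hi, hci⟩ := h1
      have hc1 : ∀ i ∈ UE, i ∉ S → i ≠ e → φ c i = 0 := by
        intro i hi hiS hie
        exact hc0 i hi (by rw [Finset.mem_insert, not_or]; exact ⟨hie, hiS⟩)
      refine ⟨c, fun _ _ => ⟨hc, hc1, ?_⟩⟩
      intro hce
      apply hci
      rcases Finset.mem_insert.1 hi with rfl | hiS
      · exact hce
      · refine hSc c hc ?_ i hiS
        intro i' hi' hi'S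
        by_cases h : i' = e
        · rw [h, hce]
        · exact hc1 i' hi' hi'S h
    · exact ⟨0, fun h1 h2 => absurd ⟨h1, h2⟩ he⟩
  choose lam hlam using hlam
  -- the rows of the `z i`
  have hrow : ∀ i, ∃ c : Fin m → MonoidAlgebra κ (Monoid.CoprodI A ⧸ K (k + 1)),
      i ∈ UZ → Rel r ρ (Monoid.CoprodI.of (z i)) c := by
    intro i
    by_cases hi : i ∈ UZ
    · obtain ⟨c, hc⟩ := hrel _ ((hz i (Finset.mem_filter.1 hi).2).2 (k + 2))
      exact ⟨c, fun _ => hc⟩
    · exact ⟨0, fun h => absurd h hi⟩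
  choose mu hmu using hrow
  have hmuI : Indep fun i : UZ => mu i := by
    refine rows_indep r θ (fun i : UZ => Monoid.CoprodI.of (z i)) ?_ K hK1 hKn hKl hKc hKt k
      (fun i : UZ => mu i) (fun i => hmu i i.2)
    intro c hc
    have h1 := hbase m r (fun i => if h : i ∈ UZ then c ⟨i, h⟩ else 0) (by
      intro i hi
      beta_reduce
      rw [dif_pos hi]
      exact hc ⟨i, hi⟩)
    have h2 : (fun i : UZ => (fun i => if h : i ∈ UZ then c ⟨i, h⟩ else 0) (i : ι)) = c := by
      funext i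
      beta_reduce
      rw [dif_pos i.2]
    rw [← h2]
    exact h1
  have hφmu : ∀ i ∈ UZ, ∀ e ∈ UE, φ (mu i) e = 0 := by
    intro i hi e he
    have h1 := rel_ring (hmu i hi) (D e) (hD e)
    rw [hD0 e i (fun h => (Finset.mem_filter.1 hi).2 (h ▸ (Finset.mem_filter.1 he).2))] at h1
    exact h1.symm
  have hannmu : ∀ i ∈ UZ, ann (mu i) := by
    intro i hi y hy
    have h1 := rel_ring (hmu i hi) (Th y) (hTh y)
    rw [hTh0 y i (fun h => hy (h ▸ hUZ hi))] at h1
    exact h1.symm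
  -- the count
  let Λ : {e // e ∈ UE \ S} ⊕ {i // i ∈ UZ} → Fin m →
    MonoidAlgebra κ (Monoid.CoprodI A ⧸ K (k + 1)) :=
    Sum.elim (fun e => lam e) fun i => mu i
  have hΛ : Indep Λ := by
    intro d hd
    have hd' : ∀ j, ∑ e : {e // e ∈ UE \ S}, d (Sum.inl e) * lam e j +
        ∑ i : {i // i ∈ UZ}, d (Sum.inr i) * mu i j = 0 := by
      intro j
      have h1 := hd j
      rw [Fintype.sum_sum_type] at h1
      exact h1
    have h1 : ∀ e : {e // e ∈ UE \ S}, d (Sum.inl e) = 0 := by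
      intro e
      have he := Finset.mem_sdiff.1 e.2
      have h2 : ∑ l, (∑ e' : {e // e ∈ UE \ S}, d (Sum.inl e') * lam e' l +
          ∑ i : {i // i ∈ UZ}, d (Sum.inr i) * mu i l) * D e (r l) = 0 :=
        Finset.sum_eq_zero fun l _ => by rw [hd', zero_mul]
      have h3 : ∑ l, (∑ e' : {e // e ∈ UE \ S}, d (Sum.inl e') * lam e' l +
          ∑ i : {i // i ∈ UZ}, d (Sum.inr i) * mu i l) * D e (r l) =
          ∑ e' : {e // e ∈ UE \ S}, d (Sum.inl e') * φ (lam e') e +
          ∑ i : {i // i ∈ UZ}, d (Sum.inr i) * φ (mu i) e := by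
        simp only [φ, Finset.sum_mul, Finset.mul_sum, mul_assoc, add_mul,
          Finset.sum_add_distrib]
        congr 1
        · rw [Finset.sum_comm]
        · rw [Finset.sum_comm]
      rw [h3, Finset.sum_eq_zero (s := Finset.univ) (f := fun i : {i // i ∈ UZ} =>
        d (Sum.inr i) * φ (mu i) e) (fun i _ => by rw [hφmu i i.2 e he.1, mul_zero]),
        add_zero, Finset.sum_eq_single e] at h2
      · exact (mul_eq_zero.1 h2).resolve_right (hlam e he.1 he.2).2.2
      · intro e' _ he'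
        have he2 := Finset.mem_sdiff.1 e'.2
        rw [(hlam e' he2.1 he2.2).2.1 e he.1 he.2 (fun h => he' (Subtype.ext h.symm)), mul_zero]
      · intro h
        exact absurd (Finset.mem_univ _) h
    have h2 : ∀ i : {i // i ∈ UZ}, d (Sum.inr i) = 0 := by
      refine hmuI (fun i => d (Sum.inr i)) ?_
      intro j
      have h3 := hd' j
      rw [Finset.sum_eq_zero (s := Finset.univ) (f := fun e : {e // e ∈ UE \ S} =>
        d (Sum.inl e) * lam e j) (fun e _ => by rw [h1, zero_mul]), zero_add] at h3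
      exact h3
    rintro (e | i)
    · exact h1 e
    · exact h2 i
  have hcount := count hfol Λ hΛ Θ hΘ (by
    rintro (e | i) y
    · have he := Finset.mem_sdiff.1 e.2
      exact (hlam e he.1 he.2).1 y.1 y.2
    · exact hannmu i i.2 y.1 y.2)
  have hcard : Fintype.card ι ≤ S.card + m := by
    rw [Fintype.card_sum, Fintype.card_coe, Fintype.card_coe, Fintype.card_subtype_compl,
      Fintype.card_coe, Finset.card_sdiff_of_subset hSU] at hcount
    have h1 : UE.card + UZ.card = U.card := Finset.card_filter_add_card_filter_not _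
    have h2 := Finset.card_le_card hSU
    have h3 : U.card ≤ Fintype.card ι := Finset.card_le_univ U
    omega
  refine ⟨S, hcard, ?_⟩
  intro x hx
  by_contra hx1
  obtain ⟨x', e, heS, hx', hne⟩ := hword S hSU ⟨x, hx1, hx⟩
  obtain ⟨c, hc⟩ := hrel _ (hx' (k + 2))
  have h1 : ∀ i ∈ UE, φ c i = D i (Monoid.CoprodI.lift (M := fun i : S => A i)
      (fun i => Monoid.CoprodI.of (i := (i : ι))) x') := fun i _ =>
    (rel_ring hc (D i) (hD i)).symm
  have h2 : ann c := by
    intro y hy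
    rw [← rel_ring hc (Th y) (hTh y)]
    exact der_lift_zero (hTh y) S (fun i hi a => hTh0 y i
      (fun h => hy (h ▸ (Finset.mem_filter.1 (hSU hi)).1)) a) x'
  have h3 := hSc c h2 (by
    intro i hi hiS
    rw [h1 i hi]
    exact der_lift_zero (hD i) S (fun j hj a => hD0 i j (fun h => hiS (h ▸ hj)) a) x') e heS
  rw [h1 e (hSU heS)] at h3
  exact hne (D e) (hD e) (hD0 e) (hDe e) h3

end Pool.Agent.H90.FS
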